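import Pool.Agent.H61.HB.Stmts5
import Pool.Agent.H53.HB.MNW

/-!
# Board fn3, row MN3: the means, in the norm of `H^(-3/2)`
-/

set_option autoImplicit false

namespace HB

theorem mn3_hpS_nonneg (f : Z2 → ℂ) : 0 ≤ hpS f :=
  tsum_nonneg fun _ => mul_nonneg (Real.sqrt_nonneg _) (by positivity)

theorem mn3_hpS_le (z : V) (i : Fin 2) : hpS (z i) ≤ hp z := by
  unfold hp
  exact Finset.single_le_sum (f := fun j => hpS (z j)) (fun j _ => mn3_hpS_nonneg _)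
    (Finset.mem_univ i)

theorem mn3_hp_nonneg (z : V) : 0 ≤ hp z := by
  unfold hp
  exact Finset.sum_nonneg fun j _ => mn3_hpS_nonneg _

theorem mn3_dot0 (hGR3 : GR3Stmt) (z : V) (b : Z2 → ℂ) (hz : Mem 2 z) (hb : MemS 2 b) :
    ‖dot z b 0‖ ≤ 2 * (√(hp z) * √(hpS b)) := by
  have hb2 : Summable (fun k => √(sq k) * ‖b k‖ ^ 2) := (hGR3.1 b hb).1
  set g : Z2 → ℝ := fun l => √(√(sq l)) * ‖b (-l)‖ with hg
  have hg2 : (fun l => g l ^ 2) = (fun k => √(sq k) * ‖b k‖ ^ 2) ∘ (Equiv.neg Z2) := by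
    funext l
    simp only [hg, Function.comp, Equiv.neg_apply]
    rw [mul_pow, Real.sq_sqrt (Real.sqrt_nonneg _), MNW.sq_neg]
  have hgs : Summable (fun l => g l ^ 2) := by
    rw [hg2]
    exact (Equiv.neg Z2).summable_iff.2 hb2
  have hgt : ∑' l, g l ^ 2 = hpS b := by
    have h1 : ∑' l, g l ^ 2 =
        ∑' l, ((fun k => √(sq k) * ‖b k‖ ^ 2) ∘ (Equiv.neg Z2)) l := by
      rw [hg2]
    rw [h1]
    exact (Equiv.neg Z2).tsum_eq (fun k => √(sq k) * ‖b k‖ ^ 2)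
  have hi : ∀ i : Fin 2, (Summable fun l => (√(√(sq l)) * ‖z i l‖) * g l) ∧
      ∑' l, (√(√(sq l)) * ‖z i l‖) * g l ≤ √(hp z) * √(hpS b) := by
    intro i
    have hzi : (fun l => (√(√(sq l)) * ‖z i l‖) ^ 2) = fun l => √(sq l) * ‖z i l‖ ^ 2 := by
      funext l
      rw [mul_pow, Real.sq_sqrt (Real.sqrt_nonneg _)]
    have h1 := MNW.cs (fun l => √(√(sq l)) * ‖z i l‖) g
      (fun l => mul_nonneg (Real.sqrt_nonneg _) (norm_nonneg _))
      (fun l => mul_nonneg (Real.sqrt_nonneg _) (norm_nonneg _))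
      (by rw [hzi]; exact (hGR3.1 (z i) (hz i)).1) hgs
    refine ⟨h1.1, h1.2.trans ?_⟩
    rw [hgt, hzi]
    exact mul_le_mul_of_nonneg_right (Real.sqrt_le_sqrt (mn3_hpS_le z i)) (Real.sqrt_nonneg _)
  have hsum : HasSum (fun l => ∑ i : Fin 2, (√(√(sq l)) * ‖z i l‖) * g l)
      (∑ i : Fin 2, ∑' l, (√(√(sq l)) * ‖z i l‖) * g l) :=
    hasSum_sum fun i _ => (hi i).1.hasSum
  have h2 : ‖dot z b 0‖ ≤ ∑ i : Fin 2, ∑' l, (√(√(sq l)) * ‖z i l‖) * g l := by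
    unfold dot
    refine tsum_of_norm_bounded hsum fun l => ?_
    unfold trm
    refine (norm_sum_le _ _).trans (Finset.sum_le_sum fun i _ => ?_)
    rw [norm_mul, norm_mul, norm_mul, Complex.norm_I, one_mul, Complex.norm_real,
      Real.norm_eq_abs]
    have h4 := MNW.co_le i l
    rw [hg]
    have h5 : ‖z i l‖ * |co i (0 - l)| * ‖b (0 - l)‖ ≤ ‖z i l‖ * √(sq l) * ‖b (0 - l)‖ :=
      mul_le_mul_of_nonneg_right (mul_le_mul_of_nonneg_left h4 (norm_nonneg _))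
        (norm_nonneg _)
    refine h5.trans (le_of_eq ?_)
    have h6 : √(√(sq l)) * √(√(sq l)) = √(sq l) := Real.mul_self_sqrt (Real.sqrt_nonneg _)
    rw [zero_sub]
    calc ‖z i l‖ * √(sq l) * ‖b (-l)‖ = ‖z i l‖ * (√(√(sq l)) * √(√(sq l))) * ‖b (-l)‖ := by
          rw [h6]
      _ = _ := by ring
  refine h2.trans ?_
  rw [Fin.sum_univ_two]
  linarith [(hi 0).2, (hi 1).2]

/-- Row MN3. -/
theorem mn3_thm (hGR3 : GR3Stmt) (hLIN : LINStmt) (hMMB : MMBStmt) : MN3Stmt := by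
  refine ⟨8, by norm_num, fun u v hu hv => ?_⟩
  obtain ⟨hl1, hl2, -, -⟩ := hLIN
  obtain ⟨-, -, hS, -, -, hV⟩ := hMMB
  have hw : Mem 2 (v - u) := (hV 2 v u hv hu).1
  set w : V := v - u with hwdef
  have hdec : ∀ j : Fin 2, adv v v j 0 - adv u u j 0 =
      dot w (w j) 0 + dot w (u j) 0 + dot u (w j) 0 := by
    intro j
    have h1 := congrFun (hl1 v u (v j) hv hu (hv j)) 0
    have h2 := congrFun (hl2 u (v j) (u j) hu (hv j) (hu j)) 0
    have h3 := congrFun (hl2 w (v j) (u j) hw (hv j) (hu j)) 0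
    rw [← hwdef] at h1
    have h4 : v j - u j = w j := rfl
    rw [h4] at h2 h3
    simp only [Pi.sub_apply] at h1 h2 h3
    unfold adv
    linear_combination -h3 - h1 - h2
  have hj : ∀ j : Fin 2, |((starRingEnd ℂ) (w j 0) * (adv v v j 0 - adv u u j 0)).re| ≤
      √(mu w) * (2 * (√(hp w) * √(hp w)) + 2 * (√(hp w) * √(hp u)) +
        2 * (√(hp u) * √(hp w))) := by
    intro j
    refine (Complex.abs_re_le_norm _).trans ?_
    rw [norm_mul, RCLike.norm_conj, hdec j]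
    refine mul_le_mul (MNW.mu_le w j) ?_ (norm_nonneg _) (Real.sqrt_nonneg _)
    refine (norm_add₃_le).trans (add_le_add (add_le_add ?_ ?_) ?_)
    · refine (mn3_dot0 hGR3 w (w j) hw (hw j)).trans ?_
      exact mul_le_mul_of_nonneg_left (mul_le_mul_of_nonneg_left
        (Real.sqrt_le_sqrt (mn3_hpS_le w j)) (Real.sqrt_nonneg _)) (by norm_num)
    · refine (mn3_dot0 hGR3 w (u j) hw (hu j)).trans ?_
      exact mul_le_mul_of_nonneg_left (mul_le_mul_of_nonneg_left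
        (Real.sqrt_le_sqrt (mn3_hpS_le u j)) (Real.sqrt_nonneg _)) (by norm_num)
    · refine (mn3_dot0 hGR3 u (w j) hu (hw j)).trans ?_
      exact mul_le_mul_of_nonneg_left (mul_le_mul_of_nonneg_left
        (Real.sqrt_le_sqrt (mn3_hpS_le w j)) (Real.sqrt_nonneg _)) (by norm_num)
  refine (Finset.abs_sum_le_sum_abs _ _).trans ?_
  rw [Fin.sum_univ_two]
  have h0 := hj 0
  have h1 := hj 1
  have hww : √(hp w) * √(hp w) = hp w := Real.mul_self_sqrt (mn3_hp_nonneg w)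
  have hmw : 0 ≤ √(mu w) * hp w := mul_nonneg (Real.sqrt_nonneg _) (mn3_hp_nonneg w)
  calc _ ≤ √(mu w) * (2 * (√(hp w) * √(hp w)) + 2 * (√(hp w) * √(hp u)) +
        2 * (√(hp u) * √(hp w))) + √(mu w) * (2 * (√(hp w) * √(hp w)) +
        2 * (√(hp w) * √(hp u)) + 2 * (√(hp u) * √(hp w))) := add_le_add h0 h1
    _ = 4 * (√(mu w) * hp w) + 8 * √(mu w) * (√(hp u) * √(hp w)) := by
        rw [hww]; ring
    _ ≤ 8 * (√(mu w) * hp w) + 8 * √(mu w) * (√(hp u) * √(hp w)) := by linarith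
    _ = _ := by ring

end HB
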